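import Pool.Agent.FS.IdSol.Solv
import Pool.Agent.FS.IdSol.IsoSolv
import Pool.Agent.Variants.MP_0d0fd2_co.IdempotentIsotopes

/-! The spectrum of `((y x) y) y = x` among idempotent quasigroups with a solvable multiplication
group, and among those isotopic to an abelian group. -/

namespace Pool.Agent.Results.MP_0d0fd2_co.IdempotentSolvable

open Pool.Agent.FS.IdSol

theorem result (n : ℕ) (hn : 1 ≤ n) : List.TFAE
    [∃ op : Fin n → Fin n → Fin n,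
      (∀ a b, ∃! x, op a x = b) ∧ (∀ a b, ∃! x, op x a = b) ∧ (∀ x, op x x = x) ∧
      (∀ x y, op (op (op y x) y) y = x) ∧
      ∃ Γ : Subgroup (Equiv.Perm (Fin n)), Group.IsSolvable Γ ∧
        ∀ a, (∃ σ ∈ Γ, ∀ x, σ x = op a x) ∧ ∃ σ ∈ Γ, ∀ x, σ x = op x a,
    ∃ op : Fin n → Fin n → Fin n,
      (∀ a b, ∃! x, op a x = b) ∧ (∀ a b, ∃! x, op x a = b) ∧ (∀ x, op x x = x) ∧
      (∀ x y, op (op (op y x) y) y = x) ∧
      ∃ (G : Type) (_ : AddCommGroup G) (α β γ : Fin n ≃ G), ∀ x y, γ (op x y) = α x + β y,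
    ∀ p : ℕ, p.Prime → (¬ ∃ a : ℤ, (p : ℤ) ∣ a ^ 3 - a ^ 2 + 1) → 3 ∣ n.factorization p] := by
  tfae_have 2 ↔ 3 := Pool.Agent.Variants.MP_0d0fd2_co.IdempotentIsotopes.result n hn
  tfae_have 1 → 3 := by
    rintro ⟨op, -, -, hI, hE, Γ, _, hΓ⟩ p hp h1
    have : Fact p.Prime := ⟨hp⟩
    refine coreS p h1 n (Fin n) Γ Γ.subtype (Nat.card_fin n) op (fun y => ?_) hE hI
    obtain ⟨σ, hσ, h⟩ := (hΓ y).2
    exact ⟨⟨σ, hσ⟩, h⟩
  tfae_have 2 → 1 := by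
    rintro ⟨op, h1, h2, hI, hE, G, _, α, β, γ, hop⟩
    have : Finite G := Finite.of_equiv _ γ
    obtain ⟨Γ, _, hΓ⟩ := solv_of_iso (fun x => α (γ.symm x)) (fun x => β (γ.symm x))
      (fun x y => by simp only [← hop, Equiv.symm_apply_apply, hE, Equiv.apply_symm_apply])
    let φ : Equiv.Perm G →* Equiv.Perm (Fin n) := γ.symm.permCongrHom.toMonoidHom
    have hφ : ∀ σ x, φ σ x = γ.symm (σ (γ x)) := fun σ x => rfl
    refine ⟨op, h1, h2, hI, hE, Γ.map φ,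
      Group.isSolvable_of_surjective (φ.subgroupMap_surjective Γ), fun a => ?_⟩
    obtain ⟨⟨σ, hσ, e⟩, τ, hτ, e'⟩ := hΓ (γ a)
    refine ⟨⟨φ σ, ⟨σ, hσ, rfl⟩, fun x => ?_⟩, φ τ, ⟨τ, hτ, rfl⟩, fun x => ?_⟩
    · rw [hφ, e]; simp only [← hop, Equiv.symm_apply_apply]
    · rw [hφ, e']; simp only [← hop, Equiv.symm_apply_apply]
  tfae_finish

end Pool.Agent.Results.MP_0d0fd2_co.IdempotentSolvable
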