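import Pool.Agent.Lib.MP_0d0fd2_co.CloAll

namespace Pool.Agent.Results.MP_0d0fd2_co.IdempotentSpectrum

/-- Idempotent quasigroups satisfying `((y x) y) y = x` of all orders outside an explicit list. -/
theorem result : ∀ n : ℕ, 1 ≤ n →
    n ∉ ({2, 3, 4, 6, 9, 10, 12, 13, 14, 15, 16, 18, 20, 22, 24, 26, 28, 30, 34, 38, 39, 42, 44,
      46, 52, 58, 60, 62, 66, 68, 76, 86} : Set ℕ) →
    ∃ op : Fin n → Fin n → Fin n,
      (∀ a b, ∃! x, op a x = b) ∧ (∀ a b, ∃! x, op x a = b) ∧ (∀ x, op x x = x) ∧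
        ∀ x y, op (op (op y x) y) y = x := by
  intro n _ hn
  refine (Pool.Agent.Lib.MP_0d0fd2_co.md_of_not_mem n fun h => hn ?_).ex
  simpa [Pool.Agent.Lib.MP_0d0fd2_co.exc] using h

end Pool.Agent.Results.MP_0d0fd2_co.IdempotentSpectrum
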