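import Pool.Agent.Lib.MP_0d0fd2_co.CloAll2

namespace Pool.Agent.Results.MP_0d0fd2_co.Spectrum

/-- Quasigroups satisfying `((y x) y) y = x` of all orders outside an explicit list. -/
theorem result : ∀ n : ℕ, 1 ≤ n → n ∉ ({2, 6, 10, 14, 18, 26, 30, 42} : Set ℕ) →
    ∃ op : Fin n → Fin n → Fin n,
      (∀ a b, ∃! x, op a x = b) ∧ (∀ a b, ∃! x, op x a = b) ∧
        ∀ x y, op (op (op y x) y) y = x := by
  intro n _ hn
  refine (Pool.Agent.Lib.MP_0d0fd2_co.md2_of_not_mem n fun h => hn ?_).latin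
  simpa using h

end Pool.Agent.Results.MP_0d0fd2_co.Spectrum
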